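import Pool.Agent.Lib.MP_54fe2d_lc.FC.Main

/-!
# `(ℵ_{ω+1}, ℵ_ω) ↠ (ℵ₁, ℵ₀)` after a collapse, for operations with at most one argument
outside `ℵ_ω`

Let `κ` be strongly compact and `λ > κ` a strong limit cardinal of cofinality less than `κ` (for
instance `λ = κ^{+ω}`, if this is a strong limit). There is `μ < κ` such that in the extension by
`Coll(ω, μ) × Coll(μ⁺, κ)`, where `μ⁺ = ℵ₁`, `κ⁺ = ℵ₂` and all cardinals above `κ` are preserved
(so `λ = ℵ_ω`, `λ⁺ = ℵ_{ω+1}` if `λ = κ^{+ω}`), every algebra on `λ⁺` with countably many operations,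
each with at most one argument outside `λ`, has a subalgebra `X` with `|X| = ℵ₁` and
`|X ∩ λ| = ℵ₀`.

Definitions: `Pool/Agent/Lib/MP_54fe2d_lc/FC/Defs.lean`.
-/

set_option autoImplicit false

namespace Pool.Agent.Results.MP_54fe2d_lc.AfterCollapse

open Cardinal Order Pool.Agent.Lib.MP_54fe2d_lc.UC Pool.Agent.Lib.MP_54fe2d_lc.FC

universe u

/-- After forcing with `Coll(ω, μ) × Coll(μ⁺, κ)` for a suitable `μ < κ`, every algebra on `λ⁺` with
countably many operations, each with at most one argument outside `λ`, has a subalgebra `X` with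
`|X| = ℵ₁` and `|X ∩ λ| = ℵ₀`. -/
theorem result {κ lam : Cardinal.{u}} (hκ : StronglyCompact κ) (hlam : κ < lam)
    (hsl : lam.IsStrongLimit) (hcof : lam.ord.cof < κ) (ν : Cardinal.{u}) (hν : ν < κ) :
    ∃ μ : Cardinal.{u}, ν ≤ μ ∧ ℵ₀ ≤ μ ∧ μ < κ ∧ CollapseCardinals κ μ ∧
      ∀ F : ℕ → List (SuccSet lam) → SuccSet lam → Nm (Frc κ μ) (SuccSet lam),
        HasSubalgebra κ μ lam F :=
  main hκ hlam hsl hcof ν hν

end Pool.Agent.Results.MP_54fe2d_lc.AfterCollapse
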