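import Pool.Agent.Lib.MP_54fe2d_lc.UC.Uniform

/-!
# Chang's conjecture above a strongly compact cardinal, for operations with at most one
argument outside `λ`

Let `κ` be strongly compact and `λ ≥ κ` a strong limit cardinal of cofinality less than `κ`
(for instance `λ = κ^{+ω}`, if this is a strong limit). There is `μ < κ` such that every algebra on
`λ⁺` with operations (fewer than `κ`, indexed by `I`) that have at most one argument outside `λ`
has a subalgebra `X` with `|X| = μ⁺` and `|X ∩ λ| = μ`. The cardinal `μ` depends only on `I`.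
-/

set_option autoImplicit false

namespace Pool.Agent.Results.MP_54fe2d_lc.OneLargeArgument

open Cardinal Order Pool.Agent.Lib.MP_54fe2d_lc.UC

universe u

/-- The set of the ordinals below `λ⁺`, as a well-ordered type; `a.toOrd` is the ordinal `a`. -/
abbrev SuccSet (lam : Cardinal.{u}) : Type u := (succ lam).ord.ToType

/-- The ordinal `a < λ⁺`. -/
noncomputable abbrev ordOf {lam : Cardinal.{u}} (a : SuccSet lam) : Ordinal.{u} :=
  (a.toOrd : Ordinal.{u})

/-- `(λ⁺, λ) ↠ (μ⁺, μ)` for operations with at most one argument outside `λ`; the cardinal `μ`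
does not depend on the operations. -/
theorem result {κ lam : Cardinal.{u}} (hκ : StronglyCompact κ) (hlam : κ ≤ lam)
    (hsl : lam.IsStrongLimit) (hcof : lam.ord.cof < κ) (I : Type u) (hI : #I < κ)
    (ν : Cardinal.{u}) (hν : ν < κ) :
    ∃ μ : Cardinal.{u}, ν ≤ μ ∧ μ < κ ∧
      ∀ F : I → List (SuccSet lam) → SuccSet lam → SuccSet lam,
      ∃ X : Set (SuccSet lam), #X = succ μ ∧
        #{a : SuccSet lam | a ∈ X ∧ ordOf a < lam.ord} = μ ∧
        (∀ a : SuccSet lam, ordOf a ≤ μ.ord → a ∈ X) ∧
        ∀ i l, (∀ c ∈ l, c ∈ X ∧ ordOf c < lam.ord) → ∀ a ∈ X, F i l a ∈ X :=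
  uniform hκ hlam hsl hcof I hI ν hν

end Pool.Agent.Results.MP_54fe2d_lc.OneLargeArgument
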