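import Pool.Agent.Lib.MP_54fe2d_lc.UC.Main

/-!
# Chang's conjecture above a strongly compact cardinal, for operations with one large variable

Let `κ` be strongly compact and `λ ≥ κ` (for instance `λ = κ^{+ω}`). For algebras on `λ⁺` whose
operations have at most one argument outside `λ` there is a subalgebra `X` with `|X| = μ⁺`,
`|X ∩ λ| = μ`, for some `μ < κ`.
-/

set_option autoImplicit false

namespace Pool.Agent.Results.MP_54fe2d_lc.OneLargeVariable

open Cardinal Order Pool.Agent.Lib.MP_54fe2d_lc.UC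

universe u

/-- The set of the ordinals below `λ⁺`, as a well-ordered type; `a.toOrd` is the ordinal `a`. -/
abbrev SuccSet (lam : Cardinal.{u}) : Type u := (succ lam).ord.ToType

/-- The ordinal `a < λ⁺`. -/
noncomputable abbrev ordOf {lam : Cardinal.{u}} (a : SuccSet lam) : Ordinal.{u} :=
  (a.toOrd : Ordinal.{u})

/-- `(λ⁺, λ) ↠ (μ⁺, μ)` for operations with one large variable. -/
theorem result {κ lam : Cardinal.{u}} (hκ : StronglyCompact κ) (hlam : κ ≤ lam)
    (I J : Type u) (hI : #I < κ) (hJ : #J < κ)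
    (F : I → List (SuccSet lam) → SuccSet lam → SuccSet lam)
    (G : J → List (SuccSet lam) → SuccSet lam)
    (ν : Cardinal.{u}) (hν : ν < κ) :
    ∃ (X : Set (SuccSet lam)) (η : Ordinal.{u}) (μ : Cardinal.{u}),
      ν.ord ≤ η ∧ η < κ.ord ∧ μ < κ ∧
      #X = succ μ ∧ #{a : SuccSet lam | a ∈ X ∧ ordOf a < lam.ord} = μ ∧
      (∀ a : SuccSet lam, ordOf a < η → a ∈ X) ∧
      (IsEmpty J → ∀ a ∈ X, ordOf a < κ.ord → ordOf a < η) ∧
      (∀ i l, (∀ c ∈ l, ordOf c < η) → ∀ a ∈ X, F i l a ∈ X) ∧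
      (∀ j l, (∀ c ∈ l, c ∈ X ∧ ordOf c < lam.ord) → G j l ∈ X) :=
  main hκ hlam I J hI hJ F G ν hν

end Pool.Agent.Results.MP_54fe2d_lc.OneLargeVariable
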